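import Mathlib

/-!
# MP_9ff1c8_al: twisted loops, and commutative universally flexible loops with the AAIP which are
not middle Bol

For an elementary abelian `2`-group `V`, an abelian group `A` and permutations `T_s` of `A` (`s` in
`V`, `T_0 = 1`) we consider the loop on `V × A` in which `(s, a) (t, b)` is `(s + t, a + b)` for
`s ≠ t` and `(0, T_s (a + b))` for `s = t`. We determine when it is universally flexible, has the
antiautomorphic inverse property, and is a middle Bol loop. Quadratic forms in characteristic two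
give an infinite family of commutative universally flexible loops with the AAIP which are not middle
Bol loops (the example of order 64 of the library is the hyperbolic form on the plane).
-/

set_option autoImplicit false

namespace Pool.Agent.Results.MP_9ff1c8_al.TwistedFamily

universe u v

/-- A loop: a set with a multiplication, a two-sided identity, and the two divisions
`ldiv a b = a \ b` (the unique solution `x` of `a x = b`) and `rdiv b a = b / a` (the unique
solution `y` of `y a = b`). -/
structure LoopStr (Q : Type u) where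
  mul : Q → Q → Q
  one : Q
  ldiv : Q → Q → Q
  rdiv : Q → Q → Q
  one_mul : ∀ x, mul one x = x
  mul_one : ∀ x, mul x one = x
  mul_ldiv : ∀ a b, mul a (ldiv a b) = b
  ldiv_mul : ∀ a x, ldiv a (mul a x) = x
  rdiv_mul : ∀ a b, mul (rdiv b a) a = b
  mul_rdiv : ∀ a y, rdiv (mul y a) a = y

/-- Commutativity. -/
def LoopStr.Comm {Q : Type u} (L : LoopStr Q) : Prop := ∀ x y, L.mul x y = L.mul y x

/-- Flexibility of a binary operation: `x(yx) = (xy)x`. -/
def Flexible {Q : Type u} (op : Q → Q → Q) : Prop := ∀ x y, op x (op y x) = op (op x y) x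

/-- Universal flexibility: every loop isotope `x ∘ y = α(x) β(y)` (`α`, `β` bijections of `Q`
such that `∘` has a two-sided identity) is flexible. -/
def LoopStr.UF {Q : Type u} (L : LoopStr Q) : Prop :=
  ∀ α β : Equiv.Perm Q,
    (∃ e, ∀ x, L.mul (α e) (β x) = x ∧ L.mul (α x) (β e) = x) →
    Flexible (fun x y => L.mul (α x) (β y))

/-- The antiautomorphic inverse property: two-sided inverses, and `(xy)⁻¹ = y⁻¹x⁻¹`. -/
def LoopStr.AAIP {Q : Type u} (L : LoopStr Q) : Prop :=
  ∃ inv : Q → Q, (∀ x, L.mul x (inv x) = L.one ∧ L.mul (inv x) x = L.one) ∧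
    ∀ x y, inv (L.mul x y) = L.mul (inv y) (inv x)

/-- The middle Bol identity `x((yz)\x) = (x/z)(y\x)`. -/
def LoopStr.MiddleBol {Q : Type u} (L : LoopStr Q) : Prop :=
  ∀ x y z, L.mul x (L.ldiv (L.mul y z) x) = L.mul (L.rdiv x z) (L.ldiv y x)

/-- The identity behind universal flexibility. -/
def LoopStr.Key {Q : Type u} (L : LoopStr Q) : Prop :=
  ∀ p a b w, L.mul p (L.ldiv b (L.mul (L.ldiv a (L.mul b w)) (L.ldiv b (L.mul p a)))) =
    L.mul (L.ldiv a (L.mul p w)) (L.ldiv b (L.mul p a))

theorem LoopStr.uf_iff {Q : Type u} (L : LoopStr Q) (hc : L.Comm) : L.UF ↔ L.Key := by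
  have hd : ∀ a y, L.rdiv y a = L.ldiv a y := fun a y => by
    have h := L.rdiv_mul a y
    rw [hc] at h
    conv_rhs => rw [← h]
    rw [L.ldiv_mul]
  constructor
  · intro h p a b w
    let α : Equiv.Perm Q := ⟨fun x => L.rdiv x a, fun x => L.mul x a,
      fun x => L.rdiv_mul a x, fun x => L.mul_rdiv a x⟩
    let β : Equiv.Perm Q := ⟨L.ldiv b, L.mul b, fun x => L.mul_ldiv b x, fun x => L.ldiv_mul b x⟩
    have h1 := h α β ⟨L.mul b a, fun x => ⟨by
      change L.mul (L.rdiv (L.mul b a) a) (L.ldiv b x) = x
      rw [L.mul_rdiv, L.mul_ldiv], by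
      change L.mul (L.rdiv x a) (L.ldiv b (L.mul b a)) = x
      rw [L.ldiv_mul, L.rdiv_mul]⟩⟩ (L.mul p a) (L.mul b w)
    change L.mul (L.rdiv (L.mul p a) a)
      (L.ldiv b (L.mul (L.rdiv (L.mul b w) a) (L.ldiv b (L.mul p a)))) =
      L.mul (L.rdiv (L.mul (L.rdiv (L.mul p a) a) (L.ldiv b (L.mul b w))) a)
        (L.ldiv b (L.mul p a)) at h1
    rw [L.mul_rdiv, L.ldiv_mul, hd, hd] at h1
    exact h1
  · rintro hk α β ⟨e, he⟩ x y
    have hb : ∀ t, β t = L.ldiv (α e) t := fun t => by
      have h := (he t).1
      conv_rhs => rw [← h]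
      rw [L.ldiv_mul]
    have ha : ∀ t, α t = L.ldiv (β e) t := fun t => by
      have h := (he t).2
      conv_rhs => rw [← h]
      rw [hc, L.ldiv_mul]
    have key := hk (α x) (β e) (α e) (β y)
    have h1 : L.mul (α x) (β e) = x := (he x).2
    have h2 : L.mul (α e) (β y) = y := (he y).1
    rw [h1, h2, ← hb, ← ha, ← hb, ← ha] at key
    exact key

section construction

variable {V : Type u} {A : Type v} [AddCommGroup V] [AddCommGroup A]

open Classical in
/-- The multiplication of the twisted loop. -/
noncomputable def tmul (T : V → Equiv.Perm A) (p q : V × A) : V × A :=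
  (p.1 + q.1, if p.1 = q.1 then T p.1 (p.2 + q.2) else p.2 + q.2)

open Classical in
/-- The division of the twisted loop. -/
noncomputable def tldiv (T : V → Equiv.Perm A) (p r : V × A) : V × A :=
  (p.1 + r.1, if r.1 = 0 then (T p.1).symm r.2 - p.2 else r.2 - p.2)

variable (hV : ∀ s : V, s + s = 0) (T : V → Equiv.Perm A)

include hV in
theorem add_cancel2 (s t : V) : s + (s + t) = t := by rw [← add_assoc, hV, zero_add]

include hV in
theorem c1 {s t : V} : s + t = 0 ↔ s = t := by
  constructor
  · intro h
    have := add_cancel2 hV s t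
    rw [h, add_zero] at this
    exact this
  · rintro rfl
    exact hV s

include hV in
theorem tmul_eq {s : V} {a b : A} : tmul T (s, a) (s, b) = (0, T s (a + b)) := by
  simp [tmul, hV]

theorem tmul_ne {s t : V} (h : s ≠ t) {a b : A} : tmul T (s, a) (t, b) = (s + t, a + b) := by
  simp [tmul, h]

theorem tldiv_zero {s : V} {a b : A} : tldiv T (s, a) (0, b) = (s, (T s).symm b - a) := by
  simp [tldiv]

theorem tldiv_ne {s r : V} (h : r ≠ 0) {a b : A} : tldiv T (s, a) (r, b) = (s + r, b - a) := by
  simp [tldiv, h]

include hV in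
theorem t_mul_ldiv (p r : V × A) : tmul T p (tldiv T p r) = r := by
  obtain ⟨s, a⟩ := p
  obtain ⟨r, b⟩ := r
  by_cases hr : r = 0
  · subst hr
    rw [tldiv_zero, tmul_eq hV]
    simp
  · rw [tldiv_ne T hr, tmul_ne T (fun h => hr (by simpa using h.symm)), add_cancel2 hV]
    simp

include hV in
theorem t_ldiv_mul (p q : V × A) : tldiv T p (tmul T p q) = q := by
  obtain ⟨s, a⟩ := p
  obtain ⟨t, b⟩ := q
  by_cases hst : s = t
  · subst hst
    rw [tmul_eq hV, tldiv_zero]
    simp
  · rw [tmul_ne T hst, tldiv_ne T (fun h => hst ((c1 hV).1 h)), add_cancel2 hV]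
    simp

theorem t_comm (p q : V × A) : tmul T p q = tmul T q p := by
  obtain ⟨s, a⟩ := p
  obtain ⟨t, b⟩ := q
  by_cases hst : s = t
  · subst hst
    simp [tmul, add_comm]
  · rw [tmul_ne T hst, tmul_ne T (Ne.symm hst), add_comm s t, add_comm a b]

theorem t_one (h0 : T 0 = 1) (q : V × A) : tmul T (0, 0) q = q := by
  obtain ⟨t, b⟩ := q
  by_cases ht : t = 0
  · subst ht
    simp [tmul, h0]
  · rw [tmul_ne T (Ne.symm ht)]
    simp

/-- **The twisted loop** `Q(V, A, T)` on `V × A`: `(s, a) (t, b)` is `(s + t, a + b)` for `s ≠ t`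
and `(0, T_s (a + b))` for `s = t`. -/
noncomputable def twisted (hV : ∀ s : V, s + s = 0) (T : V → Equiv.Perm A) (h0 : T 0 = 1) :
    LoopStr (V × A) where
  mul := tmul T
  one := (0, 0)
  ldiv := tldiv T
  rdiv := fun b a => tldiv T a b
  one_mul := t_one T h0
  mul_one := fun x => by rw [t_comm, t_one T h0]
  mul_ldiv := t_mul_ldiv hV T
  ldiv_mul := t_ldiv_mul hV T
  rdiv_mul := fun a b => by rw [t_comm, t_mul_ldiv hV T]
  mul_rdiv := fun a y => by rw [t_comm, t_ldiv_mul hV T]

omit [AddCommGroup A] in
theorem one_symm' : (1 : Equiv.Perm A).symm = 1 := rfl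

/-- The conditions on `T`: it is an action of `V`, and each `T_s` commutes with the translations by
the elements of `2 A` and by its own displacements `T_s z - z`. -/
structure Good (T : V → Equiv.Perm A) : Prop where
  hom : ∀ s t x, T (s + t) x = T s (T t x)
  two : ∀ s x y, T s (x + (y + y)) = T s x + (y + y)
  per : ∀ s x z, T s (x + (T s z - z)) = T s x + (T s z - z)

variable {T}

theorem Good.comm (G : Good T) (s t : V) (x : A) : T s (T t x) = T t (T s x) := by
  rw [← G.hom, ← G.hom, add_comm]

include hV in
theorem Good.inv (G : Good T) (h0 : T 0 = 1) (s : V) (x : A) : T s (T s x) = x := by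
  rw [← G.hom, hV, h0]; rfl

include hV in
theorem Good.symm (G : Good T) (h0 : T 0 = 1) (s : V) (x : A) : (T s).symm x = T s x := by
  rw [Equiv.symm_apply_eq, G.inv hV h0]

include hV in
/-- The displacements have order two. -/
theorem Good.dd (G : Good T) (h0 : T 0 = 1) (s : V) (x : A) : T s x - x + (T s x - x) = 0 := by
  have h := G.per s x x
  have e : x + (T s x - x) = T s x := by abel
  rw [e, G.inv hV h0] at h
  have e2 : T s x - x + (T s x - x) = T s x + (T s x - x) - x := by abel
  rw [e2, ← h]; abel


theorem Good.move (G : Good T) (s : V) (x y z : A) :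
    T s (x + ((y + y) + (T s z - z))) = T s x + ((y + y) + (T s z - z)) := by
  rw [← add_assoc, G.per, G.two, add_assoc]

include hV in
theorem key_of_good (h0 : T 0 = 1) (G : Good T) (p a b w : V × A) :
    tmul T p (tldiv T b (tmul T (tldiv T a (tmul T b w)) (tldiv T b (tmul T p a)))) =
      tmul T (tldiv T a (tmul T p w)) (tldiv T b (tmul T p a)) := by
  classical
  obtain ⟨u, U⟩ := p
  obtain ⟨a, A'⟩ := a
  obtain ⟨b, B⟩ := b
  obtain ⟨w, W⟩ := w
  have k1 : u + a = 0 ↔ u = a := c1 hV
  have k2 : b + w = 0 ↔ b = w := c1 hV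
  have k6 : u + w = 0 ↔ u = w := c1 hV
  have k4 : a + (b + w) + (b + (u + a)) = 0 ↔ u = w := by
    rw [show a + (b + w) + (b + (u + a)) = (a + a) + ((b + b) + (u + w)) by abel, hV, hV,
      zero_add, zero_add, k6]
  have k3 : a + (b + w) = b + (u + a) ↔ u = w := by
    rw [← k4, c1 hV]
  have k5 : u = b + (a + (b + w) + (b + (u + a))) ↔ b = w := by
    rw [← c1 hV, show u + (b + (a + (b + w) + (b + (u + a)))) =
      (a + a) + ((b + b) + ((u + u) + (b + w))) by abel, hV, hV, hV, zero_add, zero_add, zero_add,
      k2]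
  have k7 : a + (u + w) = b + (u + a) ↔ b = w := by
    rw [← c1 hV, show a + (u + w) + (b + (u + a)) = (a + a) + ((u + u) + (b + w)) by abel,
      hV, hV, zero_add, zero_add, k2]
  have hs := G.symm hV h0
  refine Prod.ext ?_ ?_
  · show u + (b + (a + (b + w) + (b + (u + a)))) = a + (u + w) + (b + (u + a))
    rw [show u + (b + (a + (b + w) + (b + (u + a)))) =
      (b + b) + (a + (u + w) + (b + (u + a))) by abel, hV, zero_add]
  · simp only [tmul, tldiv, k1, k2, k3, k4, k5, k6, k7, hs]
    by_cases h1 : u = a
    · by_cases h2 : b = w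
      · by_cases h3 : u = w
        · subst h1 h2 h3
          simp only [if_true]
          simp only [G.hom, G.inv hV h0]
          congr 1; abel
        · subst h1 h2
          simp only [if_true, if_neg h3]
          have e1 : T u (T b (B + W)) = T (b + u) (B + W) := by rw [add_comm b u, G.hom]
          have e2 : T b (T u (U + A')) = T (b + u) (U + A') := by rw [G.hom]
          have e3 : ∀ y, T u y = T b (T (b + u) y) := fun y => by rw [G.hom, G.inv hV h0]
          have e4 : ∀ y, T (u + (u + b)) y = T b y := fun y => by rw [add_cancel2 hV]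
          rw [e1, e2, e3, e4]
          congr 1
          rw [show U + (T (b + u) (B + W) - A' + (T (b + u) (U + A') - B) - B) =
            T (b + u) (B + W) + (((U - B) + (U - B)) + (T (b + u) (U + A') - (U + A'))) by abel,
            G.move, G.inv hV h0]
          abel
      · by_cases h3 : u = w
        · subst h1 h3
          simp only [if_true, if_neg h2]
          rw [show u + (b + u) = b by rw [add_comm b u, add_cancel2 hV], G.inv hV h0,
            G.inv hV h0]
          abel
        · subst h1
          simp only [if_true, if_neg h2, if_neg h3]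
          abel
    · by_cases h2 : b = w
      · by_cases h3 : u = w
        · subst h2 h3
          simp only [if_true, if_neg h1]
          have e1 : ∀ y, T a (T u y) = T (a + u) y := fun y => by rw [G.hom]
          have e3 : ∀ y, T u y = T a (T (a + u) y) := fun y => by rw [G.hom, G.inv hV h0]
          rw [hV, add_zero, e1, e1]
          set R := T (a + u) with hR
          have e4 : ∀ y, T u (T a y) = R y := fun y => by rw [hR, G.hom, G.comm]
          rw [e4, e3]
          congr 1
          have m1 : R (R (B + W) - A' + (U + A' - B)) =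
              R ((B + W) + (U - B)) + (R (B + W) - (B + W)) := by
            rw [show R (B + W) - A' + (U + A' - B) =
              ((B + W) + (U - B)) + (R (B + W) - (B + W)) by abel]
            exact G.per _ _ _
          rw [m1, show U + (R (B + W + (U - B)) + (R (B + W) - (B + W)) - B) =
            ((B + W) + (((U - B) + (U - B)) + (R ((B + W) + (U - B)) - ((B + W) + (U - B))))) +
              (R (B + W) - (B + W)) by abel, hR, G.per, G.move, ← hR]
          have h5 := G.dd hV h0 (a + u) (B + W)
          rw [← hR] at h5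
          rw [show B + W + (U - B) = U + W by abel]
          have h6 : R (B + W) + (U - B + (U - B) + (R (U + W) - (U + W))) +
              (R (B + W) - (B + W)) = R (U + W) - A' + (U + A' - B) +
              (R (B + W) - (B + W) + (R (B + W) - (B + W))) := by abel
          rw [h6, h5, add_zero]
        · subst h2
          simp only [if_true, if_neg h1, if_neg h3]
          rw [show U + (T a (T b (B + W)) - A' + (U + A' - B) - B) =
            T a (T b (B + W)) + ((U - B) + (U - B)) by abel,
            show U + W - A' + (U + A' - B) = (B + W) + ((U - B) + (U - B)) by abel,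
            G.two, G.two, G.hom, G.hom, G.comm u a]
      · by_cases h3 : u = w
        · subst h3
          simp only [if_true, if_neg h1, if_neg h2]
          rw [show B + W - A' + (U + A' - B) = U + W by abel, G.hom, G.hom, G.comm a b,
            G.inv hV h0]
          abel
        · simp only [if_neg h1, if_neg h2, if_neg h3]
          abel

include hV in
theorem twisted_comm (h0 : T 0 = 1) : (twisted hV T h0).Comm := t_comm T

include hV in
theorem uf_of_good (h0 : T 0 = 1) (G : Good T) : (twisted hV T h0).UF :=
  ((twisted hV T h0).uf_iff (twisted_comm hV h0)).2 (key_of_good hV h0 G)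

include hV in
theorem Good.neg (G : Good T) (h0 : T 0 = 1) (s : V) (x : A) : T s (-x) = - T s x := by
  have h1 := G.two s (-x) x
  rw [show -x + (x + x) = x by abel] at h1
  have h2 := G.dd hV h0 s x
  have h3 : T s (-x) + T s x = T s (-x) + (T s (-x) + (x + x)) := by rw [← h1]
  have h4 : T s (-x) = T s x - (x + x) := by rw [h1]; abel
  rw [h4]
  have h5 : T s x - (x + x) = - T s x + (T s x - x + (T s x - x)) := by abel
  rw [h5, h2, add_zero]

include hV in
theorem Good.zz (G : Good T) (h0 : T 0 = 1) (s : V) : T s 0 + T s 0 = 0 := by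
  simpa using G.dd hV h0 s 0

include hV in
theorem aaip_iff (h0 : T 0 = 1) (G : Good T) :
    (twisted hV T h0).AAIP ↔ ∀ s t, T (s + t) 0 = T s 0 + T t 0 := by
  have hs := G.symm hV h0
  constructor
  · rintro ⟨inv, h1, h2⟩ s t
    have hinv : ∀ x, inv x = tldiv T x (0, 0) := fun x => by
      have h3 : tmul T x (inv x) = (0, 0) := (h1 x).1
      rw [← h3, t_ldiv_mul hV]
    by_cases hst : s = t
    · subst hst
      rw [hV, h0, G.zz hV h0]; rfl
    · have h3 : inv (tmul T (s, 0) (t, 0)) = tmul T (inv (t, 0)) (inv (s, 0)) := h2 _ _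
      rw [hinv, hinv, hinv, tmul_ne T hst, tldiv_zero, tldiv_zero, tldiv_zero,
        tmul_ne T (Ne.symm hst), hs, hs, hs] at h3
      have h4 := congrArg Prod.snd h3
      simp only [add_zero, sub_zero] at h4
      rw [h4, add_comm]
  · intro h
    refine ⟨fun x => tldiv T x (0, 0), fun x => ⟨t_mul_ldiv hV T _ _, ?_⟩, ?_⟩
    · change tmul T _ _ = _
      rw [t_comm]
      exact t_mul_ldiv hV T _ _
    · rintro ⟨s, a⟩ ⟨t, b⟩
      change tldiv T (tmul T (s, a) (t, b)) (0, 0) =
        tmul T (tldiv T (t, b) (0, 0)) (tldiv T (s, a) (0, 0))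
      by_cases hst : s = t
      · subst hst
        rw [tmul_eq hV, tldiv_zero, tldiv_zero, tldiv_zero, tmul_eq hV, hs, hs, h0]
        refine Prod.ext rfl ?_
        change 0 - T s (a + b) = T s (T s 0 - b + (T s 0 - a))
        rw [show T s 0 - b + (T s 0 - a) = -(a + b) + (T s 0 + T s 0) by abel, G.zz hV h0,
          add_zero, G.neg hV h0, zero_sub]
      · rw [tmul_ne T hst, tldiv_zero, tldiv_zero, tldiv_zero, tmul_ne T (Ne.symm hst), hs, hs, hs,
          h, add_comm t s]
        refine Prod.ext rfl ?_
        change T s 0 + T t 0 - (a + b) = T t 0 - b + (T s 0 - a)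
        abel

include hV in
theorem middleBol_iff (h0 : T 0 = 1) (G : Good T) :
    (twisted hV T h0).MiddleBol ↔ ∀ s t x, T s (T t x) - T t x = T s x - x := by
  have hs := G.symm hV h0
  have h00 : ∀ x, T 0 x = x := fun x => by rw [h0]; rfl
  constructor
  · intro h s t x
    by_cases hst : s = t
    · subst hst
      rw [G.inv hV h0]
      have h1 := G.dd hV h0 s x
      have h2 : x - T s x = T s x - x - (T s x - x + (T s x - x)) := by abel
      rw [h2, h1, sub_zero]
    · have h1 : tmul T (0, x) (tldiv T (tmul T (s, 0) (t, 0)) (0, x)) =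
        tmul T (tldiv T (t, 0) (0, x)) (tldiv T (s, 0) (0, x)) := h (0, x) (s, 0) (t, 0)
      have hst0 : (0 : V) ≠ s + t := fun h => hst ((c1 hV).1 h.symm)
      rw [tmul_ne T hst, tldiv_zero, tldiv_zero, tldiv_zero, tmul_ne T hst0,
        tmul_ne T (Ne.symm hst), hs, hs, hs] at h1
      have h2 := congrArg Prod.snd h1
      simp only [add_zero, sub_zero] at h2
      rw [G.hom] at h2
      have h3 : T s (T t x) = T t x + T s x - x := by rw [← h2]; abel
      rw [h3]; abel
  · rintro h ⟨r, X⟩ ⟨s, Y⟩ ⟨t, Z⟩
    change tmul T (r, X) (tldiv T (tmul T (s, Y) (t, Z)) (r, X)) =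
        tmul T (tldiv T (t, Z) (r, X)) (tldiv T (s, Y) (r, X))
    have hT : ∀ r s q, T (s + r) (X + X - q) = T r (X + X - T s q) := fun r s q => by
      rw [show X + X - q = -q + (X + X) by abel, show X + X - T s q = -T s q + (X + X) by abel,
        G.two, G.two, G.neg hV h0, G.neg hV h0, add_comm s r, G.hom]
    by_cases hst : s = t
    · subst hst
      rw [tmul_eq hV]
      by_cases hr : r = 0
      · subst hr
        rw [tldiv_zero, tldiv_zero, tldiv_zero, tmul_eq hV, tmul_eq hV, hs, hs, h00, h00]
        refine Prod.ext rfl ?_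
        change X + (X - T s (Y + Z)) = T s (T s X - Z + (T s X - Y))
        have h1 := G.dd hV h0 s X
        have h2 : T s X - Z + (T s X - Y) = X + X - (Y + Z) + (T s X - X + (T s X - X)) := by abel
        rw [h2, h1, add_zero]
        have h3 := hT 0 s (Y + Z)
        rw [add_zero, h00] at h3
        rw [h3]; abel
      · rw [tldiv_ne T hr, tldiv_ne T hr, tldiv_ne T hr, zero_add, tmul_eq hV, tmul_eq hV]
        refine Prod.ext rfl ?_
        change T r (X + (X - T s (Y + Z))) = T (s + r) (X - Z + (X - Y))
        rw [show X - Z + (X - Y) = X + X - (Y + Z) by abel, hT]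
        congr 1; abel
    · have hst0 : s + t ≠ 0 := fun h => hst ((c1 hV).1 h)
      rw [tmul_ne T hst]
      by_cases hr : r = 0
      · subst hr
        rw [tldiv_zero, tldiv_zero, tldiv_zero, tmul_ne T (Ne.symm hst0), tmul_ne T (Ne.symm hst),
          hs, hs, hs]
        refine Prod.ext ?_ ?_
        · change 0 + (s + t) = t + s
          abel
        · change X + (T (s + t) X - (Y + Z)) = T t X - Z + (T s X - Y)
          rw [G.hom]
          have h1 := h s t X
          have h2 : T s (T t X) = T s X - X + T t X := by rw [← h1]; abel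
          rw [h2]; abel
      · rw [tldiv_ne T hr, tldiv_ne T hr, tldiv_ne T hr,
          tmul_ne T (fun h => hst0 (by simpa using h.symm)),
          tmul_ne T (fun h => hst (add_right_cancel h).symm)]
        refine Prod.ext ?_ ?_
        · change r + (s + t + r) = t + r + (s + r)
          abel
        · change X + (X - (Y + Z)) = X - Z + (X - Y)
          abel

include hV in
theorem good_of_uf (hA : ∀ x : A, x + x = 0) (h0 : T 0 = 1) (h : (twisted hV T h0).UF) :
    Good T := by
  have hk := ((twisted hV T h0).uf_iff (twisted_comm hV h0)).1 h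
  have hneg : ∀ x : A, -x = x := fun x => neg_eq_of_add_eq_zero_right (hA x)
  have h00 : ∀ x, T 0 x = x := fun x => by rw [h0]; rfl
  have per : ∀ s x z, T s (x + (T s z - z)) = T s x + (T s z - z) := by
    intro s x z
    by_cases hs : s = 0
    · subst hs; simp [h00]
    · have h1 := hk (s, z) (s, 0) (0, 0) (0, T s x)
      change tmul T (s, z) (tldiv T (0, 0) (tmul T (tldiv T (s, 0) (tmul T (0, 0) (0, T s x)))
        (tldiv T (0, 0) (tmul T (s, z) (s, 0))))) =
        tmul T (tldiv T (s, 0) (tmul T (s, z) (0, T s x)))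
          (tldiv T (0, 0) (tmul T (s, z) (s, 0))) at h1
      rw [tmul_eq hV, tldiv_zero, tmul_eq hV, tldiv_zero, tmul_ne T hs, add_zero s,
        tldiv_ne T hs, zero_add s, tmul_eq hV, tmul_ne T hs, add_zero s, tldiv_ne T hs, hV,
        tmul_eq hV, h0] at h1
      have h2 := congrArg Prod.snd h1
      simp only [add_zero, zero_add, sub_zero, Equiv.Perm.coe_one, id_eq, Equiv.symm_apply_apply,
        one_symm'] at h2
      rw [sub_eq_add_neg, hneg, show x + (T s z + z) = z + (x + T s z) by abel, h2]
      abel
  have inv : ∀ s x, T s (T s x) = x := by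
    intro s x
    have h1 := per s x x
    rw [show x + (T s x - x) = T s x by abel] at h1
    rw [h1, sub_eq_add_neg, hneg, ← add_assoc, hA, zero_add]
  refine ⟨fun s t x => ?_, fun s x y => by rw [hA, add_zero, add_zero], per⟩
  by_cases hs : s = 0
  · subst hs; simp [h00]
  · by_cases hst : s = t
    · subst hst
      rw [inv, hV, h00]
    · have h1 := hk (s, 0) (0, 0) (t, 0) (t, x)
      change tmul T (s, 0) (tldiv T (t, 0) (tmul T (tldiv T (0, 0) (tmul T (t, 0) (t, x)))
        (tldiv T (t, 0) (tmul T (s, 0) (0, 0))))) =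
        tmul T (tldiv T (0, 0) (tmul T (s, 0) (t, x)))
          (tldiv T (t, 0) (tmul T (s, 0) (0, 0))) at h1
      have hst0 : s + t ≠ 0 := fun h => hst ((c1 hV).1 h)
      have hts : t + s ≠ 0 := by rwa [add_comm]
      rw [tmul_eq hV, tldiv_zero, tmul_ne T hs, add_zero s, tldiv_ne T hs,
        tmul_ne T (Ne.symm hts), zero_add (t + s), tldiv_ne T hts, add_cancel2 hV, tmul_eq hV,
        tmul_ne T hst, tldiv_ne T hst0, zero_add (s + t), add_comm t s, tmul_eq hV, h0] at h1
      have h2 := congrArg Prod.snd h1
      simp only [add_zero, zero_add, sub_zero, Equiv.Perm.coe_one, id_eq,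
        one_symm'] at h2
      exact h2.symm

end construction

section examples

variable {V : Type u} {C : Type v} [AddCommGroup V] [AddCommGroup C]

/-- The map `T_s (y, c, z, e) = (y + s, c, z + (B(s, y) + q(s)) c, e)`. -/
def act (B : V → V → ZMod 2) (q : V → ZMod 2) (s : V) (x : V × ZMod 2 × ZMod 2 × C) :
    V × ZMod 2 × ZMod 2 × C :=
  (x.1 + s, x.2.1, x.2.2.1 + (B s x.1 + q s) * x.2.1, x.2.2.2)

/-- `q` is a quadratic form on the elementary abelian `2`-group `V`, with the polar form `B`. -/
structure IsQuad (B : V → V → ZMod 2) (q : V → ZMod 2) : Prop where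
  el : ∀ s : V, s + s = 0
  add : ∀ s y z, B s (y + z) = B s y + B s z
  pol : ∀ s t, q (s + t) = q s + q t + B s t

theorem two_zero : (2 : ZMod 2) = 0 := by decide

variable {B : V → V → ZMod 2} {q : V → ZMod 2}

theorem IsQuad.symm (h : IsQuad B q) (s t : V) : B s t = B t s := by
  have h1 := h.pol s t
  have h2 := h.pol t s
  rw [add_comm t s] at h2
  linear_combination h2 - h1

theorem IsQuad.zero (h : IsQuad B q) (s : V) : B s 0 = 0 := by
  have h1 := h.add s 0 0
  rw [add_zero] at h1
  linear_combination - h1

theorem IsQuad.alt (h : IsQuad B q) (s : V) : B s s = 0 := by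
  have h1 := h.pol s s
  have h2 := h.pol 0 0
  rw [h.el] at h1
  rw [h.zero, add_zero, add_zero] at h2
  linear_combination - h1 - h2 - q s * two_zero

theorem IsQuad.add' (h : IsQuad B q) (s t y : V) : B (s + t) y = B s y + B t y := by
  rw [h.symm, h.add, h.symm y s, h.symm y t]

omit [AddCommGroup C] in
theorem act_act (h : IsQuad B q) (s : V) (x : V × ZMod 2 × ZMod 2 × C) :
    act B q s (act B q s x) = x := by
  obtain ⟨y, c, z, e⟩ := x
  simp only [act, Prod.mk.injEq, and_true, true_and, h.add, h.alt]
  refine ⟨by rw [add_assoc, h.el, add_zero], ?_⟩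
  linear_combination (B s y + q s) * c * two_zero

/-- The action. -/
def actP (h : IsQuad B q) (C : Type v) [AddCommGroup C] (s : V) :
    Equiv.Perm (V × ZMod 2 × ZMod 2 × C) :=
  ⟨act B q s, act B q s, act_act h s, act_act h s⟩

theorem actP_apply (h : IsQuad B q) (s : V) (x : V × ZMod 2 × ZMod 2 × C) :
    actP h C s x = act B q s x := rfl

theorem q_zero (h : IsQuad B q) : q 0 = 0 := by
  have h2 := h.pol 0 0
  rw [h.zero, add_zero, add_zero] at h2
  linear_combination - h2

theorem actP_zero (h : IsQuad B q) : actP h C 0 = 1 := by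
  ext1 x
  obtain ⟨y, c, z, e⟩ := x
  rw [actP_apply]
  have h1 : B 0 y = 0 := by rw [h.symm, h.zero]
  simp [act, h1, q_zero h]

theorem good_actP (h : IsQuad B q) : Good (actP h C) := by
  refine ⟨?_, ?_, ?_⟩
  · rintro s t ⟨y, c, z, e⟩
    simp only [actP_apply, act, Prod.mk.injEq, and_true, true_and, h.add, h.add', h.pol]
    refine ⟨by abel, ?_⟩
    linear_combination (0 : ZMod 2) * two_zero
  · rintro s ⟨y, c, z, e⟩ ⟨y', c', z', e'⟩
    have h1 : y' + y' = 0 := h.el y'
    have h2 : c' + c' = 0 := by linear_combination c' * two_zero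
    have h3 : z' + z' = 0 := by linear_combination z' * two_zero
    simp only [actP_apply, act, Prod.mk_add_mk, h1, h2, h3, add_zero]
  · rintro s ⟨y, c, z, e⟩ ⟨y', c', z', e'⟩
    simp only [actP_apply, act, Prod.mk_add_mk, Prod.mk_sub_mk, Prod.mk.injEq, sub_self, add_zero,
      add_sub_cancel_left, h.add, h.alt, and_true, true_and]
    ring

theorem example_loop (h : IsQuad B q) (C : Type v) [AddCommGroup C] (hB : ∃ s t, B s t ≠ 0) :
    (twisted h.el (actP h C) (actP_zero h)).Comm ∧ (twisted h.el (actP h C) (actP_zero h)).UF ∧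
    (twisted h.el (actP h C) (actP_zero h)).AAIP ∧
    ¬ (twisted h.el (actP h C) (actP_zero h)).MiddleBol := by
  have G : Good (actP h C) := good_actP h
  refine ⟨twisted_comm h.el _, uf_of_good h.el _ G, (aaip_iff h.el _ G).2 ?_, ?_⟩
  · intro s t
    simp [actP_apply, act]
  · rw [middleBol_iff h.el _ G]
    intro hm
    obtain ⟨s, t, hst⟩ := hB
    have h1 := hm s t (0, 1, 0, 0)
    simp only [actP_apply, act, Prod.mk_sub_mk, Prod.mk.injEq] at h1
    apply hst
    have h2 := h1.2.2.1
    simp only [h.add, h.zero] at h2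
    linear_combination h2

end examples

/-- The hyperbolic quadratic form `x y` on the plane over the field with two elements. -/
theorem plane_quad : IsQuad (V := ZMod 2 × ZMod 2) (fun s t => s.1 * t.2 + s.2 * t.1)
    (fun s => s.1 * s.2) :=
  ⟨by decide, by decide, by decide⟩

/-- **The twisted loops.**

(1) For elementary abelian `2`-groups `V` and abelian groups `A` and permutations `T_s` of `A`
(`s` in `V`, `T_0 = 1`) the twisted loop `Q(V, A, T)` is commutative. If `T` is good (an action
of `V` by permutations that commute with the translations by the elements of `2 A` and by their own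
displacements), the loop is universally flexible, it has the AAIP if and only if `s ↦ T_s 0` is
additive, and it is middle Bol if and only if `T_s T_t x - T_t x = T_s x - x` for all `s, t, x`. If
`A` is an elementary abelian `2`-group, the loop is universally flexible if and only if `T` is good.

(2) For every quadratic form `q` with a nonzero polar form `B` on an elementary abelian `2`-group
`V`, finite or infinite, and every abelian group `C` the action
`T_s (y, c, z, e) = (y + s, c, z + (B(s, y) + q(s)) c, e)` of `V` on `V × F₂ × F₂ × C` gives a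
commutative universally flexible loop with the AAIP which is not a middle Bol loop.

(3) For every `n ≥ 1` there is such a loop of order `64 n`. -/
theorem result :
    (∀ (V : Type u) (A : Type v) [AddCommGroup V] [AddCommGroup A] (hV : ∀ s : V, s + s = 0)
      (T : V → Equiv.Perm A) (h0 : T 0 = 1),
      (twisted hV T h0).Comm ∧
      (Good T → (twisted hV T h0).UF ∧
        ((twisted hV T h0).AAIP ↔ ∀ s t, T (s + t) 0 = T s 0 + T t 0) ∧
        ((twisted hV T h0).MiddleBol ↔ ∀ s t x, T s (T t x) - T t x = T s x - x)) ∧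
      ((∀ x : A, x + x = 0) → ((twisted hV T h0).UF ↔ Good T))) ∧
    (∀ (V : Type u) (C : Type v) [AddCommGroup V] [AddCommGroup C] (B : V → V → ZMod 2)
      (q : V → ZMod 2) (h : IsQuad B q), (∃ s t, B s t ≠ 0) →
      (twisted h.el (actP h C) (actP_zero h)).Comm ∧
      (twisted h.el (actP h C) (actP_zero h)).UF ∧
      (twisted h.el (actP h C) (actP_zero h)).AAIP ∧
      ¬ (twisted h.el (actP h C) (actP_zero h)).MiddleBol) ∧
    (∀ n : ℕ, 0 < n → ∃ (Q : Type) (L : LoopStr Q), Nat.card Q = 64 * n ∧
      L.Comm ∧ L.UF ∧ L.AAIP ∧ ¬ L.MiddleBol) := by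
  refine ⟨?_, ?_, ?_⟩
  · intro V A _ _ hV T h0
    exact ⟨twisted_comm hV h0, fun G => ⟨uf_of_good hV h0 G, aaip_iff hV h0 G,
      middleBol_iff hV h0 G⟩, fun hA => ⟨good_of_uf hV hA h0, uf_of_good hV h0⟩⟩
  · intro V C _ _ B q h hB
    exact example_loop h C hB
  · intro n hn
    have : NeZero n := ⟨hn.ne'⟩
    refine ⟨_, _, ?_, example_loop plane_quad (ZMod n) ⟨(1, 0), (0, 1), by decide⟩⟩
    simp only [Nat.card_prod, Nat.card_zmod]
    ring

end Pool.Agent.Results.MP_9ff1c8_al.TwistedFamily
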